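import Mathlib
import Pool.Agent.H71R3.Zaf3

set_option autoImplicit false

namespace Pool.Agent.Results.MP_849d05_an.ZafranIdealNotClosure

open Pool.Agent.H71R3.FS Pool.Agent.H71R3.Zafran Filter Topology UniformSpace

/-- The Fourier-Stieltjes algebra `B(G) = C*(G)^*` with its norm; the element `Φ` is the function
`g ↦ Φ (dir g)`. -/
abbrev BG (G : Type) [Group G] : Type := CStar G →L[ℂ] ℂ

/-- `Φ` vanishes at infinity -/
def IsC0 {G : Type} [Group G] (Φ : BG G) : Prop := Tendsto (fun g => Φ (dir g)) cofinite (𝓝 0)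

/-- the spectrum of `Φ` in `B(G)` -/
def spec {G : Type} [Group G] (Φ : BG G) : Set ℂ :=
  {lam | ¬ ∃ Ψ : BG G, ∀ g, Ψ (dir g) * (lam - Φ (dir g)) = 1}

/-- `Φ` has natural spectrum -/
def NaturalSpectrum {G : Type} [Group G] (Φ : BG G) : Prop :=
  spec Φ = closure (Set.range fun g => Φ (dir g))

/-- `Φ` belongs to the Fourier algebra: it is a coefficient of the left regular representation -/
def IsA {G : Type} [Group G] (Φ : BG G) : Prop :=
  ∃ ξ η : G → ℂ, (Summable fun x => ‖ξ x‖ ^ 2) ∧ (Summable fun x => ‖η x‖ ^ 2) ∧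
    ∀ g, Φ (dir g) = ∑' x, ξ (g⁻¹ * x) * starRingEnd ℂ (η x)

/-- `r(A(G))` -/
def rA (G : Type) [Group G] : Set (BG G) :=
  {Φ | ∃ n : ℕ, 0 < n ∧ ∃ Ψ : BG G, IsA Ψ ∧ ∀ g, Ψ (dir g) = Φ (dir g) ^ n}

theorem countable_GG : Countable GG := by
  classical
  choose K hK using fun x : GG => exists_bound x
  let J : GG → (Σ k : ℕ, ∀ m : Fin k, Fm m) := fun x => ⟨K x, fun m => x.1 m⟩
  have hJ : Function.Injective J := by
    intro x y hxy
    have h1 : K x = K y := congrArg Sigma.fst hxy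
    have h2 : ∀ m, m < K x → x.1 m = y.1 m := by
      intro m hm
      have key : ∀ (a b : Σ k : ℕ, ∀ m : Fin k, Fm m), a = b → ∀ (ha : m < a.1) (hb : m < b.1),
          a.2 ⟨m, ha⟩ = b.2 ⟨m, hb⟩ := by
        rintro a b rfl ha hb
        rfl
      exact key _ _ hxy hm (lt_of_lt_of_eq hm h1)
    refine Subtype.ext (funext fun m => ?_)
    by_cases hm : m < K x
    · exact h2 m hm
    · rw [hK x m (by omega), hK y m (by omega)]
  have h3 : ∀ m, Countable (Fm m) := fun m =>
    FreeGroup.toWord_injective.countable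
  exact hJ.countable

/-- **The answer to Q1 is negative.** -/
theorem result : ∃ (G : Type) (_ : Group G), Countable G ∧
    ∃ Φ : BG G, IsC0 Φ ∧ NaturalSpectrum Φ ∧ Φ ∉ closure (rA G) := by
  obtain ⟨Φ, hΦ, -⟩ := hasF_mu
  refine ⟨GG, inferInstance, countable_GG, Φ, ?_, ?_, ?_⟩
  · unfold IsC0
    simp only [hΦ]
    exact mu_tendsto
  · unfold NaturalSpectrum
    refine Set.Subset.antisymm (fun lam hlam => ?_) (fun lam hlam => ?_)
    · by_contra hc
      apply hlam
      have h1 : ∀ x, lam ≠ mu x := by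
        intro x hx
        apply hc
        refine subset_closure ⟨x, ?_⟩
        simp only [hΦ]
        exact hx.symm
      have h0 : lam ≠ 0 := by
        intro h0
        apply hc
        rw [h0]
        -- the values at the letters tend to zero
        have h2 : Tendsto (fun m : ℕ => mu (em m (FreeGroup.of ⟨0, by positivity⟩))) atTop (𝓝 0) := by
          refine squeeze_zero_norm (a := fun m : ℕ => 1 / ((m : ℝ) + 1)) (fun m => ?_)
            tendsto_one_div_add_atTop_nhds_zero_nat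
          refine (mu_le _ m).trans ?_
          rw [em_same, ps_ne (FreeGroup.of_ne_one _)]
          have h3 : (1 / 2 : ℝ) ^ (FreeGroup.of (⟨0, by positivity⟩ : Fin (2 ^ ((m + 1) ^ 2)))).norm
              ≤ 1 := pow_le_one₀ (by norm_num) (by norm_num)
          have h4 := ep_pos m
          calc ep m * _ ≤ ep m * 1 := mul_le_mul_of_nonneg_left h3 h4.le
            _ = _ := by rw [mul_one]; rfl
        refine mem_closure_of_tendsto h2 (Eventually.of_forall fun m => ⟨_, hΦ _⟩)
      obtain ⟨Ψ, hΨ⟩ := exists_inverse lam h0 h1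
      exact ⟨Ψ, fun g => by rw [hΦ]; exact hΨ g⟩
    · rintro ⟨Ψ, hΨ⟩
      rw [Metric.mem_closure_iff] at hlam
      obtain ⟨_, ⟨g, rfl⟩, hg⟩ := hlam (1 / (‖Ψ‖ + 1)) (by positivity)
      have h1 := congrArg norm (hΨ g)
      rw [norm_mul, norm_one] at h1
      rw [dist_eq_norm, lt_div_iff₀ (by positivity)] at hg
      have h2 : ‖Ψ (dir g)‖ ≤ ‖Ψ‖ := norm_val_le Ψ g
      have h3 := norm_nonneg (lam - Φ (dir g))
      nlinarith [norm_nonneg Ψ]
  · intro hcl
    rw [Metric.mem_closure_iff] at hcl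
    obtain ⟨Ψ, ⟨n, hn, Θ, ⟨ξ, η, hξ, hη, hΘ⟩, hpow⟩, hd⟩ := hcl (1 / 4) (by norm_num)
    have h1 := dist_lower Φ Ψ hΦ n hn ξ η hξ hη (fun y => by rw [← hpow, hΘ])
    rw [dist_eq_norm] at hd
    linarith

end Pool.Agent.Results.MP_849d05_an.ZafranIdealNotClosure
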